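import Pool.Agent.H615R3.TMSpace

set_option autoImplicit false

namespace Pool.Agent.Results.MP_145b75_an.IPNotDelta

open Pool.Agent.H615R3 Topology

/-- There is a (nonzero complex) Banach space `X` and a bounded operator `T` on `X` that is
uniformly recurrent, even `IP*`-recurrent, but not `Δ*`-recurrent: its only `Δ*`-recurrent vector
is `0`. -/
theorem result : ∃ (X : Type) (_ : NormedAddCommGroup X) (_ : NormedSpace ℂ X)
    (_ : CompleteSpace X) (T : X →L[ℂ] X),
    Dense {u : X | UnifRec T u} ∧ Dense {u : X | IPStarRec T u} ∧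
      ¬ Dense {u : X | DeltaStarRec T u} ∧ ∀ u : X, DeltaStarRec T u → u = 0 := by
  refine ⟨MM, inferInstance, inferInstance, inferInstance, TT, dense_unif, dense_ip, ?_,
    delta_zero⟩
  intro hd
  have h1 : {u : MM | DeltaStarRec TT u} ⊆ {0} := fun u hu => delta_zero u hu
  have h2 : Dense ({0} : Set MM) := hd.mono h1
  have h3 : x0 ∈ closure ({0} : Set MM) := h2 x0
  rw [closure_singleton] at h3
  exact x0_ne h3

end Pool.Agent.Results.MP_145b75_an.IPNotDelta
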